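import Pool.Agent.helper38.VA.Spec

set_option autoImplicit false

namespace Pool.Agent.VA

open Matrix Module Pool.Agent.PR Pool.Agent.H48SL

theorem KND_out (C : M2) (h0 : C ≠ 0) (hd : C.det = 0) :
    ∃ u v : Fin 2 → ℚ, u ≠ 0 ∧ v ≠ 0 ∧ C = vecMulVec u v := by
  have hex : ∃ i j, C i j ≠ 0 := by
    by_contra h
    push Not at h
    apply h0
    ext i j
    exact h i j
  obtain ⟨i, j, hij⟩ := hex
  rw [Matrix.det_fin_two] at hd
  refine ⟨fun k => C k j, fun l => C i l / C i j, ?_, ?_, ?_⟩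
  · intro h
    exact hij (congrFun h i)
  · intro h
    have := congrFun h j
    simp only [Pi.zero_apply] at this
    rw [div_self hij] at this
    exact one_ne_zero this
  · ext k l
    rw [vecMulVec_apply]
    rw [← mul_div_assoc, eq_div_iff hij]
    fin_cases i <;> fin_cases j <;> fin_cases k <;> fin_cases l <;> simp at * <;> linarith

theorem KND_alg {A : Type*} [Ring A] (X Y : A) (hX : X * X = 0) (hY : Y * Y = 0)
    (hYX : Y * (X * Y) = 0) :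
    (1 + X) * (1 + Y) * (1 - X) * ((1 - X) * (1 + Y) * (1 + X)) * ((1 - Y) * (1 - Y)) =
      1 - (X * (Y * X) + X * (Y * X)) := by
  have hX' : ∀ W : A, X * (X * W) = 0 := fun W => by rw [← mul_assoc, hX, zero_mul]
  have hY' : ∀ W : A, Y * (Y * W) = 0 := fun W => by rw [← mul_assoc, hY, zero_mul]
  have hYX' : ∀ W : A, Y * (X * (Y * W)) = 0 := fun W => by
    rw [← mul_assoc, ← mul_assoc, mul_assoc Y X Y, hYX, zero_mul]
  have h1 : (1 + X) * (1 + Y) * (1 - X) = 1 + Y + X * Y - Y * X - X * (Y * X) := by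
    simp only [mul_add, add_mul, mul_sub, sub_mul, mul_one, one_mul, mul_assoc, hX, hX']
    abel
  have h2 : (1 - X) * (1 + Y) * (1 + X) = 1 + Y - X * Y + Y * X - X * (Y * X) := by
    simp only [mul_add, add_mul, mul_sub, sub_mul, mul_one, one_mul, mul_assoc, hX, hX']
    abel
  have h3 : (1 - Y) * (1 - Y) = 1 - Y - Y := by
    simp only [mul_sub, sub_mul, mul_one, one_mul, hY]
    abel
  have h4 : (1 + Y + X * Y - Y * X - X * (Y * X)) * (1 + Y - X * Y + Y * X - X * (Y * X)) =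
      1 + Y + Y - X * (Y * X) - X * (Y * X) := by
    simp only [mul_add, add_mul, mul_sub, sub_mul, mul_one, one_mul, mul_assoc, hX, hX', hY, hY',
      hYX, hYX', mul_zero]
    abel
  rw [h1, h2, h3, h4]
  simp only [mul_add, add_mul, mul_sub, sub_mul, mul_one, one_mul, mul_assoc, hX, hX', hY, hY',
      hYX, hYX', mul_zero]
  abel

theorem KND_exp {n : ℕ} (X : MQ n) (hX : X * X = 0) : IsNilpotent.exp X = 1 + X := by
  have h : X ^ 2 = 0 := by rw [sq, hX]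
  rw [IsNilpotent.exp_eq_sum h]
  simp [Finset.sum_range_succ]

theorem KND_pow {n : ℕ} (g : SLZ n) (T : MQ n) (hT : T * T = 0) (hg : stdM ℚ g = 1 + T) (m : ℤ) :
    stdM ℚ (g ^ m) = 1 + (m : ℚ) • T := by
  have hinv : stdM ℚ g⁻¹ = 1 - T := by
    have h1 := stdM_inv_mul ℚ g
    rw [hg] at h1
    have h2 : (1 + T) * (1 - T) = 1 := by
      rw [mul_sub, add_mul, add_mul, mul_one, mul_one, one_mul, hT]
      simp
    calc stdM ℚ g⁻¹ = stdM ℚ g⁻¹ * ((1 + T) * (1 - T)) := by rw [h2, mul_one]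
      _ = (stdM ℚ g⁻¹ * (1 + T)) * (1 - T) := by rw [mul_assoc]
      _ = 1 - T := by rw [h1, one_mul]
  induction m using Int.induction_on with
  | zero => simp [stdM_one]
  | succ i ih =>
    rw [_root_.zpow_add_one, stdM_mul, ih, hg, mul_add, mul_one, add_mul, one_mul, smul_mul_assoc, hT,
      smul_zero, add_zero]
    push_cast
    rw [add_smul, one_smul, add_assoc]
  | pred i ih =>
    rw [_root_.zpow_sub_one, stdM_mul, ih, hinv, mul_sub, mul_one, add_mul, one_mul, smul_mul_assoc, hT,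
      smul_zero, add_zero]
    push_cast
    rw [sub_smul, one_smul]
    abel

theorem KND_inj {n : ℕ} {g h : SLZ n} (H : stdM ℚ g = stdM ℚ h) : g = h := by
  apply SL_ext
  ext i j
  have := congrFun (congrFun H i) j
  simp only [stdM, Matrix.map_apply, eq_intCast, Int.cast_inj] at this
  exact this

theorem KND_mid (x y z : M2) (u v u' v' : Fin 2 → ℚ) :
    x * vecMulVec u v * y * vecMulVec u' v' * z =
      (v ⬝ᵥ (y *ᵥ u')) • vecMulVec (x *ᵥ u) (v' ᵥ* z) := by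
  rw [mul_vecMulVec x u v, vecMulVec_mul (x *ᵥ u) v y, vecMulVec_mul_vecMulVec, vecMulVec_mul,
    Matrix.smul_vecMul, vecMulVec_smul, ← Matrix.dotProduct_mulVec]

theorem KND_rank {n : ℕ} (a b : Fin n → ℚ) (ha : a ≠ 0) (hb : b ≠ 0) :
    (vecMulVec a b).rank = 1 := by
  apply le_antisymm (rank_vecMulVec_le a b)
  rw [Nat.one_le_iff_ne_zero]
  intro h
  have h0 : vecMulVec a b ≠ 0 := vecMulVec_ne_zero ha hb
  apply h0
  rw [Matrix.rank, Submodule.finrank_eq_zero, LinearMap.range_eq_bot] at h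
  ext i j
  have := congrFun (LinearMap.congr_fun h (Pi.single j 1)) i
  simpa using this

theorem KND (hF1 : F1_stmt) : KND_stmt := by
  intro n hn H hH R S R' S' hRS hR' hS' W₂ hW2 hdet hlog hm
  obtain ⟨m, hmH, hC0, hCd, hC0', hCd'⟩ := hm
  have hRS' : cq R * cq S = 0 := by
    have : cq R * cq S = cq (R * S) := by
      unfold cq
      rw [Matrix.map_mul]
    rw [this, hRS]
    unfold cq
    simp
  obtain ⟨u, v, hu, hv, hC⟩ := KND_out _ hC0 hCd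
  obtain ⟨u', v', hu', hv', hC'⟩ := KND_out _ hC0' hCd'
  -- choice of x₀
  let f : W₂ →ₗ[ℚ] ℚ :=
    { toFun := fun x => v' ⬝ᵥ ((x : M2) *ᵥ u)
      map_add' := by
        intro x y
        rw [Submodule.coe_add, Matrix.add_mulVec, dotProduct_add]
      map_smul' := by
        intro c x
        rw [Submodule.coe_smul, Matrix.smul_mulVec, dotProduct_smul, RingHom.id_apply] }
  have hker : LinearMap.ker f ≠ ⊥ := by
    apply LinearMap.ker_ne_bot_of_finrank_lt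
    rw [hW2, finrank_self]
    norm_num
  obtain ⟨x₀w, hx₀k, hx₀n⟩ := Submodule.exists_mem_ne_zero_of_ne_bot hker
  have hx₀f : v' ⬝ᵥ ((x₀w : M2) *ᵥ u) = 0 := hx₀k
  have hx₀n' : (x₀w : M2) ≠ 0 := fun h => hx₀n (Subtype.ext h)
  -- choice of x'
  let g : W₂ →ₗ[ℚ] (Fin 2 → ℚ) :=
    { toFun := fun x => (x : M2) *ᵥ u'
      map_add' := by
        intro x y
        rw [Submodule.coe_add, Matrix.add_mulVec]
      map_smul' := by
        intro c x
        rw [Submodule.coe_smul, Matrix.smul_mulVec, RingHom.id_apply] }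
  have hginj : Function.Injective g := by
    rw [injective_iff_map_eq_zero]
    intro x hx
    by_contra hne
    have hne' : (x : M2) ≠ 0 := fun h => hne (Subtype.ext h)
    exact hdet x x.2 hne' (Matrix.exists_mulVec_eq_zero_iff.mp ⟨u', hu', hx⟩)
  have hgsurj : Function.Surjective g := by
    rw [← LinearMap.injective_iff_surjective_of_finrank_eq_finrank]
    · exact hginj
    · rw [hW2]
      simp
  have hvw : ∃ w : Fin 2 → ℚ, v ⬝ᵥ w ≠ 0 := by
    by_contra h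
    push Not at h
    apply hv
    ext i
    have := h (Pi.single i 1)
    simpa using this
  obtain ⟨w, hw⟩ := hvw
  obtain ⟨x'w, hx'w⟩ := hgsurj w
  have hx'v : v ⬝ᵥ ((x'w : M2) *ᵥ u') ≠ 0 := by
    have : (x'w : M2) *ᵥ u' = w := hx'w
    rw [this]
    exact hw
  -- scaling
  obtain ⟨k₀, hk₀, hE₀⟩ := hlog x₀w x₀w.2
  obtain ⟨k₁, hk₁, hE₁⟩ := hlog x'w x'w.2
  have hk₀q : (k₀ : ℚ) ≠ 0 := by exact_mod_cast hk₀.ne'
  have hk₁q : (k₁ : ℚ) ≠ 0 := by exact_mod_cast hk₁.ne'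
  obtain ⟨x₀, hx₀def⟩ : ∃ x : M2, x = (k₀ : ℚ) • (x₀w : M2) := ⟨_, rfl⟩
  obtain ⟨x₁, hx₁def⟩ : ∃ x : M2, x = (k₁ : ℚ) • (x'w : M2) := ⟨_, rfl⟩
  have hE₀' : EX H (cq S * x₀ * cq R) := by
    rw [hx₀def, Matrix.mul_smul, Matrix.smul_mul]
    exact hE₀
  have hE₁' : EX H (cq S * x₁ * cq R) := by
    rw [hx₁def, Matrix.mul_smul, Matrix.smul_mul]
    exact hE₁
  have hx₀d : x₀.det ≠ 0 := by
    apply hdet
    · rw [hx₀def]
      exact W₂.smul_mem _ x₀w.2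
    · rw [hx₀def]
      exact smul_ne_zero hk₀q hx₀n'
  have hx₀u : v' ⬝ᵥ (x₀ *ᵥ u) = 0 := by
    rw [hx₀def, Matrix.smul_mulVec, dotProduct_smul, hx₀f, smul_zero]
  have hx₁u : v ⬝ᵥ (x₁ *ᵥ u') ≠ 0 := by
    rw [hx₁def, Matrix.smul_mulVec, dotProduct_smul, smul_eq_mul]
    exact mul_ne_zero hk₁q hx'v
  -- the matrices
  obtain ⟨M, hM⟩ : ∃ M : MQ n, M = stdM ℚ m := ⟨_, rfl⟩
  obtain ⟨M', hM'⟩ : ∃ M : MQ n, M = stdM ℚ m⁻¹ := ⟨_, rfl⟩
  have hMM' : M * M' = 1 := by rw [hM, hM', stdM_mul_inv]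
  have hM'M : M' * M = 1 := by rw [hM, hM', stdM_inv_mul]
  have hCM : cq R * (M * cq S) = vecMulVec u v := by
    rw [← hC, Cb, hM, Matrix.mul_assoc]
  have hCM' : cq R * (M' * cq S) = vecMulVec u' v' := by
    rw [← hC', Cb, hM', Matrix.mul_assoc]
  obtain ⟨X₀, hX₀⟩ : ∃ X : MQ n, X = cq S * x₀ * cq R := ⟨_, rfl⟩
  obtain ⟨X₁, hX₁⟩ : ∃ X : MQ n, X = cq S * x₁ * cq R := ⟨_, rfl⟩
  have hsq : ∀ x y : M2, (cq S * x * cq R) * (cq S * y * cq R) = 0 := by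
    intro x y
    calc (cq S * x * cq R) * (cq S * y * cq R) = cq S * x * (cq R * cq S) * y * cq R := by
          simp only [Matrix.mul_assoc]
      _ = 0 := by rw [hRS']; simp
  have hX₀X₀ : X₀ * X₀ = 0 := by rw [hX₀]; exact hsq _ _
  have hX₁X₁ : X₁ * X₁ = 0 := by rw [hX₁]; exact hsq _ _
  obtain ⟨Y, hY⟩ : ∃ Y : MQ n, Y = M * X₁ * M' := ⟨_, rfl⟩
  have hYY : Y * Y = 0 := by
    calc Y * Y = M * X₁ * (M' * M) * X₁ * M' := by
          rw [hY]; simp only [Matrix.mul_assoc]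
      _ = M * (X₁ * X₁) * M' := by rw [hM'M, Matrix.mul_one]; simp only [Matrix.mul_assoc]
      _ = 0 := by rw [hX₁X₁]; simp
  have hXYX : X₀ * (Y * X₀) = (v ⬝ᵥ (x₁ *ᵥ u')) •
      vecMulVec (cq S *ᵥ (x₀ *ᵥ u)) ((v' ᵥ* x₀) ᵥ* cq R) := by
    calc X₀ * (Y * X₀) = cq S * (x₀ * (cq R * (M * cq S)) * x₁ * (cq R * (M' * cq S)) * x₀) * cq R := by
          rw [hY, hX₀, hX₁]; simp only [Matrix.mul_assoc]
      _ = _ := by
          rw [hCM, hCM', KND_mid, Matrix.mul_smul, Matrix.smul_mul, mul_vecMulVec, vecMulVec_mul]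
  have hYXY : Y * (X₀ * Y) = 0 := by
    calc Y * (X₀ * Y) = M * (cq S * (x₁ * (cq R * (M' * cq S)) * x₀ * (cq R * (M * cq S)) * x₁) * cq R) * M' := by
          rw [hY, hX₀, hX₁]; simp only [Matrix.mul_assoc]
      _ = 0 := by
          rw [hCM, hCM', KND_mid, hx₀u]
          simp
  -- the elements
  obtain ⟨a, haH, ha⟩ := hE₀'
  obtain ⟨b, hbH, hb⟩ := hE₁'
  rw [← hX₀, KND_exp X₀ hX₀X₀] at ha
  rw [← hX₁, KND_exp X₁ hX₁X₁] at hb
  have hai : stdM ℚ a⁻¹ = 1 - X₀ := by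
    have := KND_pow a X₀ hX₀X₀ ha (-1)
    rw [_root_.zpow_neg_one] at this
    rw [this]
    simp [sub_eq_add_neg]
  obtain ⟨y, hyd⟩ : ∃ y : SLZ n, y = m * b * m⁻¹ := ⟨_, rfl⟩
  have hyH : y ∈ H := by
    rw [hyd]
    exact H.mul_mem (H.mul_mem hmH hbH) (H.inv_mem hmH)
  have hy : stdM ℚ y = 1 + Y := by
    rw [hyd, stdM_mul, stdM_mul, hb, ← hM, ← hM', Matrix.mul_add, Matrix.add_mul, Matrix.mul_one,
      hMM', hY]
  have hyi : stdM ℚ y⁻¹ = 1 - Y := by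
    have := KND_pow y Y hYY hy (-1)
    rw [_root_.zpow_neg_one] at this
    rw [this]
    simp [sub_eq_add_neg]
  obtain ⟨t, htd⟩ : ∃ t : SLZ n, t = a * y * a⁻¹ * (a⁻¹ * y * a) * (y⁻¹ * y⁻¹) := ⟨_, rfl⟩
  have htH : t ∈ H := by
    rw [htd]
    exact H.mul_mem (H.mul_mem (H.mul_mem (H.mul_mem haH hyH) (H.inv_mem haH))
      (H.mul_mem (H.mul_mem (H.inv_mem haH) hyH) haH)) (H.mul_mem (H.inv_mem hyH) (H.inv_mem hyH))
  obtain ⟨Z, hZ⟩ : ∃ Z : MQ n, Z = X₀ * (Y * X₀) := ⟨_, rfl⟩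
  have ht : stdM ℚ t = 1 + (-2 : ℚ) • Z := by
    rw [htd, stdM_mul, stdM_mul, stdM_mul, stdM_mul, stdM_mul, stdM_mul, stdM_mul, ha, hai, hy, hyi,
      KND_alg X₀ Y hX₀X₀ hYY hYXY, ← hZ]
    rw [neg_smul, two_smul, sub_eq_add_neg]
  have hXZ : X₀ * Z = 0 := by
    rw [hZ, ← Matrix.mul_assoc, hX₀X₀, Matrix.zero_mul]
  have hZX : Z * X₀ = 0 := by
    rw [hZ, Matrix.mul_assoc, Matrix.mul_assoc, hX₀X₀, Matrix.mul_zero, Matrix.mul_zero]
  have hZZ : Z * Z = 0 := by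
    nth_rewrite 2 [hZ]
    rw [← Matrix.mul_assoc, hZX, Matrix.zero_mul]
  have hTT : ((-2 : ℚ) • Z) * ((-2 : ℚ) • Z) = 0 := by
    rw [Matrix.smul_mul, Matrix.mul_smul, hZZ, smul_zero, smul_zero]
  refine hF1 n hn H hH t htH a haH ?_ ?_ ?_
  · apply KND_inj
    rw [stdM_mul, stdM_mul, ha, ht]
    have e1 : (1 + X₀) * (1 + (-2 : ℚ) • Z) = 1 + X₀ + (-2 : ℚ) • Z := by
      rw [Matrix.mul_add, Matrix.mul_one, Matrix.add_mul, Matrix.one_mul, Matrix.mul_smul, hXZ,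
        smul_zero, add_zero]
    have e2 : (1 + (-2 : ℚ) • Z) * (1 + X₀) = 1 + X₀ + (-2 : ℚ) • Z := by
      rw [Matrix.add_mul, Matrix.one_mul, Matrix.mul_add, Matrix.mul_one, Matrix.smul_mul, hZX,
        smul_zero, add_zero]
    rw [e1, e2]
  · rw [ht, add_sub_cancel_left, hZ, hXYX, smul_smul, ← vecMulVec_smul]
    apply KND_rank
    · intro h
      have h1 : S' *ᵥ (cq S *ᵥ (x₀ *ᵥ u)) = 0 := by rw [h, Matrix.mulVec_zero]
      rw [Matrix.mulVec_mulVec, hS', Matrix.one_mulVec] at h1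
      exact hx₀d (Matrix.exists_mulVec_eq_zero_iff.mp ⟨u, hu, h1⟩)
    · refine smul_ne_zero (mul_ne_zero (by norm_num) hx₁u) ?_
      intro h
      have h1 : ((v' ᵥ* x₀) ᵥ* cq R) ᵥ* R' = 0 := by rw [h, Matrix.zero_vecMul]
      rw [Matrix.vecMul_vecMul, hR', Matrix.vecMul_one] at h1
      exact hx₀d (Matrix.exists_vecMul_eq_zero_iff.mp ⟨v', hv', h1⟩)
  · intro k hk m' hEq
    have h1 : stdM ℚ (a ^ k) = 1 + ((k : ℤ) : ℚ) • X₀ := by
      rw [← zpow_natCast]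
      exact KND_pow a X₀ hX₀X₀ ha k
    have h2 := KND_pow t _ hTT ht m'
    rw [hEq, h2] at h1
    have h3 : (m' : ℚ) • ((-2 : ℚ) • Z) = ((k : ℤ) : ℚ) • X₀ := add_left_cancel h1
    have h4 : S' * (((k : ℤ) : ℚ) • X₀) * R' = ((k : ℤ) : ℚ) • x₀ := by
      rw [hX₀, Matrix.mul_smul, Matrix.smul_mul]
      congr 1
      calc S' * (cq S * x₀ * cq R) * R' = (S' * cq S) * x₀ * (cq R * R') := by
            simp only [Matrix.mul_assoc]
        _ = x₀ := by rw [hS', hR']; simp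
    have h5 : S' * ((m' : ℚ) • ((-2 : ℚ) • Z)) * R' =
        vecMulVec ((m' : ℚ) • (-2 : ℚ) • (v ⬝ᵥ (x₁ *ᵥ u')) • (x₀ *ᵥ u)) (v' ᵥ* x₀) := by
      rw [hZ, hXYX, Matrix.mul_smul, Matrix.mul_smul, Matrix.mul_smul, Matrix.smul_mul,
        Matrix.smul_mul, Matrix.smul_mul, mul_vecMulVec, vecMulVec_mul, Matrix.mulVec_mulVec, hS',
        Matrix.one_mulVec, Matrix.vecMul_vecMul, hR', Matrix.vecMul_one, smul_vecMulVec,
        smul_vecMulVec, smul_vecMulVec]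
    rw [h3, h4] at h5
    have h6 : (((k : ℤ) : ℚ) • x₀).det = 0 := by
      rw [h5]
      rw [Matrix.det_fin_two]
      simp only [vecMulVec_apply]
      ring
    rw [Matrix.det_smul] at h6
    have hkq : ((k : ℤ) : ℚ) ≠ 0 := by
      push_cast
      exact_mod_cast hk.ne'
    exact mul_ne_zero (pow_ne_zero _ hkq) hx₀d h6

end Pool.Agent.VA
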